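import Mathlib

open Filter Topology MeasureTheory ProbabilityTheory

namespace Pool.Agent.Results.MP_e9a5a5_pr.AllFix

/-- Convolution with the uniform law on `{-1, 1}`. -/
noncomputable def cv (F : ℝ → ℝ) (x : ℝ) : ℝ := (F (x - 1) + F (x + 1)) / 2

/-- One max step. -/
noncomputable def Phi (F : ℝ → ℝ) (x : ℝ) : ℝ := cv F x ^ 2

/-- One min step. -/
noncomputable def Phi' (F : ℝ → ℝ) (x : ℝ) : ℝ := 1 - (1 - cv F x) ^ 2

theorem seq {s b : ℕ → ℝ} (s0 : ∀ k, 0 ≤ s k) (b1 : ∀ k, b k ≤ 1)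
    (hs : Tendsto s atTop (𝓝 1)) (hb : Tendsto b atTop (𝓝 0))
    (hA : ∀ k, s k ^ 2 + s (k + 1) ^ 2 = 2 - 2 * b k)
    (hB : ∀ k, b k ^ 2 + b (k + 1) ^ 2 = 2 - 2 * s (k + 1)) : s 0 + b 0 - 1 = 0 := by
  let d : ℕ → ℝ := fun k => s k + b k - 1
  have r : ∀ k, d (k + 1) * (1 - s (k + 1) + b (k + 1)) = d k * (1 + s k - b k) := fun k => by
    simp only [d]
    linear_combination hB k - hA k
  by_contra h0
  have nz : ∀ k, d k ≠ 0 := fun k => by
    induction k with
    | zero => exact h0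
    | succ k ih =>
      intro e
      have := r k
      rw [e, zero_mul] at this
      have t := (mul_eq_zero.1 this.symm).resolve_left ih
      exact ih (by simp only [d]; linarith [s0 k, b1 k])
  have hd : Tendsto (fun k => |d k|) atTop (𝓝 0) := by
    simpa using ((hs.add hb).sub_const 1).abs
  have e1 : Tendsto (fun k => |1 - s k + b k|) atTop (𝓝 0) := by
    simpa using (((tendsto_const_nhds (x := (1 : ℝ))).sub hs).add hb).abs
  have e2 : Tendsto (fun k => 1 + s k - b k) atTop (𝓝 (1 + 1 - 0)) :=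
    (tendsto_const_nhds.add hs).sub hb
  obtain ⟨K, hK⟩ := eventually_atTop.1 ((e1.eventually (gt_mem_nhds one_pos)).and
    (e2.eventually (lt_mem_nhds (show (1 : ℝ) < 1 + 1 - 0 by norm_num))))
  have mono : ∀ k, K ≤ k → |d K| ≤ |d k| := fun k hk => by
    induction k, hk using Nat.le_induction with
    | base => exact le_rfl
    | succ k hk ih =>
      have a := congrArg abs (r k)
      rw [abs_mul, abs_mul, abs_of_pos (by linarith [(hK k hk).2] : 0 < 1 + s k - b k)] at a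
      nlinarith [(hK k hk).2, (hK (k + 1) (by omega)).1, abs_nonneg (d k), abs_nonneg (d (k + 1))]
  exact (abs_pos.2 (nz K)).not_ge (ge_of_tendsto hd (eventually_atTop.2 ⟨K, mono⟩))

theorem result (μ : Measure ℝ) [IsProbabilityMeasure μ]
    (h : ∀ x, Phi (Phi' (cdf μ)) x = cdf μ x) (x : ℝ) :
    cdf μ (x + 2) = 2 * Real.sqrt (cdf μ x) - cdf μ x := by
  let a : ℕ → ℝ := fun k => cdf μ (x + 2 * k)
  have a0 : ∀ k, 0 ≤ a k := fun k => cdf_nonneg _ _
  have a1 : ∀ k, a k ≤ 1 := fun k => cdf_le_one _ _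
  have ha : Tendsto a atTop (𝓝 1) := (tendsto_cdf_atTop μ).comp (tendsto_atTop_add_const_left _ _
    (tendsto_natCast_atTop_atTop.const_mul_atTop two_pos))
  have := seq (s := fun k => Real.sqrt (a k)) (b := fun k => 1 - (a k + a (k + 1)) / 2)
    (fun k => Real.sqrt_nonneg _) (fun k => by linarith [a0 k, a0 (k + 1)])
    (by simpa using ha.sqrt)
    (by simpa using (tendsto_const_nhds (x := (1 : ℝ))).sub
          ((ha.add (ha.comp (tendsto_add_atTop_nat 1))).div_const 2))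
    (fun k => by rw [Real.sq_sqrt (a0 _), Real.sq_sqrt (a0 _)]; ring)
    (fun k => by
      have e := h (x + 2 * (k + 1 : ℕ))
      have e1 : x + 2 * ((k + 1 : ℕ) : ℝ) - 1 - 1 = x + 2 * k := by push_cast; ring
      have e2 : x + 2 * ((k + 1 : ℕ) : ℝ) + 1 + 1 = x + 2 * ((k + 1 + 1 : ℕ) : ℝ) := by
        push_cast; ring
      simp only [Phi, Phi', cv, e1, e2, sub_add_cancel, add_sub_cancel_right] at e
      change ((1 - (1 - (a k + a (k + 1)) / 2) ^ 2 +
        (1 - (1 - (a (k + 1) + a (k + 1 + 1)) / 2) ^ 2)) / 2) ^ 2 = a (k + 1) at e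
      have q : Real.sqrt (a (k + 1)) = (1 - (1 - (a k + a (k + 1)) / 2) ^ 2 +
          (1 - (1 - (a (k + 1) + a (k + 1 + 1)) / 2) ^ 2)) / 2 := by
        rw [Real.sqrt_eq_iff_mul_self_eq (a0 _) (by
          nlinarith [a0 k, a0 (k + 1), a0 (k + 1 + 1), a1 k, a1 (k + 1), a1 (k + 1 + 1)]), ← sq, e]
      rw [q]; ring)
  simp only [a, Nat.cast_zero, mul_zero, add_zero, zero_add, Nat.cast_one, mul_one] at this
  linarith

end Pool.Agent.Results.MP_e9a5a5_pr.AllFix
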